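import Mathlib
import Pool.Agent.Lib.MP_4caafd_al.Inv.Main

/-!
For `C` one of `T1S`, `T2S`, `TzS`, every ideally `C`-closed inverse semigroup is projectively
`C`-closed.
-/

namespace Pool.Agent.Results.MP_4caafd_al.InversePositive

open Pool.Agent.Lib.MP_4caafd_al

universe u

/-- An inverse semigroup: every element has exactly one inverse. -/
def IsInverseSemigroup (X : Type u) [Semigroup X] : Prop :=
  ∀ x : X, ∃! y : X, x * y * x = x ∧ y * x * y = y

theorem result (C : SGClass.{u}) (hC : C = T1S ∨ C = T2S ∨ C = TzS) (X : Type u) [Semigroup X]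
    (hX : IsInverseSemigroup X) : IsIdeallyClosed C X → IsProjectivelyClosed C X :=
  Inv.main hC hX

end Pool.Agent.Results.MP_4caafd_al.InversePositive
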