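import Mathlib
import Pool.Agent.Lib.MP_4caafd_al.Defs

/-!
A countable simple semigroup (a Rees matrix semigroup over an infinite Boolean group) that is
ideally `C`-closed but not projectively `C`-closed, for every class `C` between `TzS` and `T1S`.
-/

namespace Pool.Agent.Results.MP_4caafd_al.ReesCounterexample

open Pool.Agent.Lib.MP_4caafd_al Topology Filter Set

universe u v

section General

variable {X : Type v} [Semigroup X] {Y : Type u} [Semigroup Y] [TopologicalSpace Y]

theorem mem_range_of_finite [T1Space Y] (h : X → Y) {y : Y} (hy : y ∈ closure (range h))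
    {V : Set Y} (hV : V ∈ 𝓝 y) (hfin : {x | h x ∈ V}.Finite) : y ∈ range h := by
  have h1 : y ∈ closure (h '' {x | h x ∈ V}) := by
    rw [mem_closure_iff_nhds] at hy ⊢
    intro t ht
    obtain ⟨z, ⟨hzt, hzV⟩, x, rfl⟩ := hy (t ∩ V) (inter_mem ht hV)
    exact ⟨h x, hzt, x, hzV, rfl⟩
  rw [(hfin.image h).isClosed.closure_eq] at h1
  exact image_subset_range _ _ h1

theorem key [T1Space Y] [ContinuousMul Y] (h : X →ₙ* Y)
    (hh : @IsEmbedding X Y ⊥ _ h) {y : Y} (hy : y ∈ closure (range h))
    (s t e : X) (hsq : ∀ x, (s * x * t) * (s * x * t) = e) :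
    ∃ V ∈ 𝓝 y, ∀ x x', h x ∈ V → h x' ∈ V → (s * x * t) * (s * x' * t) = e := by
  let : TopologicalSpace X := ⊥
  have : DiscreteTopology X := ⟨rfl⟩
  obtain ⟨W, hWo, hW⟩ := hh.isInducing.isOpen_iff.1 (isOpen_discrete ({e} : Set X))
  have hcl : IsClosed {z : Y | (h s * z * h t) * (h s * z * h t) = h e} :=
    isClosed_singleton.preimage (f := fun z : Y => (h s * z * h t) * (h s * z * h t))
      (by fun_prop)
  have hy2 : (h s * y * h t) * (h s * y * h t) = h e := by
    refine hcl.closure_subset_iff.2 ?_ hy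
    rintro _ ⟨x, rfl⟩
    simp only [mem_setOf_eq, ← map_mul, hsq]
  have he : h e ∈ W := by
    have : e ∈ h ⁻¹' W := by rw [hW]; rfl
    exact this
  have hc : Continuous fun p : Y × Y => (h s * p.1 * h t) * (h s * p.2 * h t) := by fun_prop
  have hn : (fun p : Y × Y => (h s * p.1 * h t) * (h s * p.2 * h t)) ⁻¹' W ∈ 𝓝 (y, y) :=
    hc.continuousAt.preimage_mem_nhds (by simpa only [hy2] using hWo.mem_nhds he)
  obtain ⟨V₁, hV₁, V₂, hV₂, hV⟩ := mem_nhds_prod_iff.1 hn
  refine ⟨V₁ ∩ V₂, inter_mem hV₁ hV₂, fun x x' hx hx' => ?_⟩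
  have h3 : (h s * h x * h t) * (h s * h x' * h t) ∈ W := hV (mk_mem_prod hx.1 hx'.2)
  simp only [← map_mul] at h3
  have : (s * x * t) * (s * x' * t) ∈ h ⁻¹' W := h3
  rwa [hW] at this

theorem isCClosed_of_bijective {C : SGClass.{u}} {Q : Type v} [Semigroup Q] (q : X →ₙ* Q)
    (hq : Function.Bijective q) (hX : IsCClosed C X) : IsCClosed C Q := by
  intro Z _ _ hZ h hh
  let : TopologicalSpace X := ⊥
  let : TopologicalSpace Q := ⊥
  have : DiscreteTopology X := ⟨rfl⟩
  have : DiscreteTopology Q := ⟨rfl⟩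
  have hqe : IsEmbedding q :=
    (IsOpenEmbedding.of_continuous_injective_isOpenMap continuous_of_discreteTopology hq.1
      (fun _ _ => isOpen_discrete _)).isEmbedding
  have := hX Z hZ (h.comp q) (hh.comp hqe)
  rwa [MulHom.coe_comp, hq.2.range_comp] at this

end General

/-- The Rees matrix semigroup over the Boolean group `(ℕ, xor)`, with index sets `ℕ` and
`Bool` and sandwich matrix `p false i = 0`, `p true i = i`. -/
@[ext] structure Rees where
  i : ℕ
  g : ℕ
  l : Bool

instance : Semigroup Rees where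
  mul x y := ⟨x.i, x.g ^^^ (cond x.l y.i 0) ^^^ y.g, y.l⟩
  mul_assoc x y z := by
    refine Rees.ext rfl ?_ rfl
    change (x.g ^^^ (cond x.l y.i 0) ^^^ y.g) ^^^ (cond y.l z.i 0) ^^^ z.g =
      x.g ^^^ (cond x.l y.i 0) ^^^ (y.g ^^^ (cond y.l z.i 0) ^^^ z.g)
    simp only [Nat.xor_assoc]

theorem mul_def (x y : Rees) :
    x * y = ⟨x.i, x.g ^^^ (cond x.l y.i 0) ^^^ y.g, y.l⟩ := rfl

instance : Countable Rees :=
  Function.Injective.countable (f := fun x : Rees => (x.i, x.g, x.l)) (by
    intro x y h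
    simp only [Prod.mk.injEq] at h
    exact Rees.ext h.1 h.2.1 h.2.2)

theorem rees_closed : IsCClosed T1S.{u} Rees := by
  rintro Y _ _ ⟨_, _⟩ h hh
  refine closure_subset_iff_isClosed.1 fun y hy => ?_
  obtain ⟨V₁, hV₁, h₁⟩ := key h hh hy ⟨0, 0, false⟩ ⟨0, 0, false⟩ ⟨0, 0, false⟩
    (fun x => by simp [mul_def])
  obtain ⟨V₂, hV₂, h₂⟩ := key h hh hy ⟨0, 0, true⟩ ⟨0, 0, false⟩ ⟨0, 0, false⟩
    (fun x => by simp [mul_def])
  refine mem_range_of_finite h hy (inter_mem hV₁ hV₂) ?_
  rcases eq_empty_or_nonempty {x | h x ∈ V₁ ∩ V₂} with he | ⟨x₀, hx₀⟩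
  · rw [he]; exact finite_empty
  · refine (Set.toFinite {(⟨x₀.i, x₀.g, false⟩ : Rees), ⟨x₀.i, x₀.g, true⟩}).subset ?_
    intro x hx
    have e₁ := h₁ x x₀ hx.1 hx₀.1
    have e₂ := h₂ x x₀ hx.2 hx₀.2
    simp only [mul_def, cond_false, cond_true, Bool.cond_self, Nat.xor_zero, Nat.zero_xor,
      Rees.mk.injEq, true_and, and_true, Nat.xor_eq_zero_iff] at e₁ e₂
    rw [e₁, Nat.xor_left_inj] at e₂
    obtain ⟨i, g, l⟩ := x
    simp only at e₁ e₂
    subst e₁ e₂
    cases l <;> simp

theorem ideal_eq_univ {I : Set Rees} (hI : IsIdeal I) {x : Rees} (hx : x ∈ I) (z : Rees) :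
    z ∈ I := by
  have h1 := (hI _ (hI x hx ⟨z.i, z.g ^^^ x.g, false⟩).2 ⟨0, 0, z.l⟩).1
  have : (⟨z.i, z.g ^^^ x.g, false⟩ : Rees) * x * ⟨0, 0, z.l⟩ = z := by
    simp [mul_def]
  rwa [this] at h1

/-- The left-zero semigroup on the one-point compactification of `ℕ`. -/
def LZ : Type u := ULift.{u} (OnePoint ℕ)

instance : TopologicalSpace LZ.{u} := inferInstanceAs (TopologicalSpace (ULift (OnePoint ℕ)))
instance : T2Space LZ.{u} := inferInstanceAs (T2Space (ULift (OnePoint ℕ)))
instance : CompactSpace LZ.{u} := inferInstanceAs (CompactSpace (ULift (OnePoint ℕ)))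
instance : TotallyDisconnectedSpace LZ.{u} :=
  (Homeomorph.ulift.{u} (X := OnePoint ℕ)).symm.totallyDisconnectedSpace

instance : Semigroup LZ.{u} where
  mul x _ := x
  mul_assoc _ _ _ := rfl

instance : ContinuousMul LZ.{u} := ⟨continuous_fst⟩

/-- The congruence that remembers only the first coordinate. -/
def firstCon : Con Rees where
  r x y := x.i = y.i
  iseqv := ⟨fun _ => rfl, Eq.symm, Eq.trans⟩
  mul' := fun h _ => h

/-- The embedding of the quotient, an infinite left-zero semigroup, in `LZ`. -/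
def toLZ : firstCon.Quotient →ₙ* LZ.{u} where
  toFun q := Con.liftOn q (fun x => (ULift.up (x.i : OnePoint ℕ) : ULift.{u} (OnePoint ℕ)))
    (fun x y h => by
      have : x.i = y.i := h
      rw [this])
  map_mul' p q := Con.induction_on₂ p q fun _ _ => rfl

theorem not_closed : ¬ IsCClosed TzS.{u} firstCon.Quotient := by
  intro H
  let : TopologicalSpace firstCon.Quotient := ⊥
  have : DiscreteTopology firstCon.Quotient := ⟨rfl⟩
  let k : firstCon.Quotient → ℕ := fun q => Con.liftOn q (fun x => x.i) (fun _ _ h => h)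
  have hk : Function.Bijective k := by
    constructor
    · intro p q
      refine Con.induction_on₂ p q fun x y h => ?_
      exact firstCon.eq.2 h
    · intro n
      exact ⟨((⟨n, 0, false⟩ : Rees) : firstCon.Quotient), rfl⟩
  have hke : IsEmbedding k :=
    (IsOpenEmbedding.of_continuous_injective_isOpenMap continuous_of_discreteTopology hk.1
      (fun _ _ => isOpen_discrete _)).isEmbedding
  let j : ℕ → LZ.{u} := fun n => (ULift.up (n : OnePoint ℕ) : ULift.{u} (OnePoint ℕ))
  have hj : IsEmbedding j :=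
    (Homeomorph.ulift.{u} (X := OnePoint ℕ)).symm.isEmbedding.comp
      OnePoint.isOpenEmbedding_coe.isEmbedding
  have hjd : DenseRange j :=
    (Homeomorph.ulift.{u} (X := OnePoint ℕ)).symm.surjective.denseRange.comp
      OnePoint.denseRange_coe (Homeomorph.ulift.{u} (X := OnePoint ℕ)).symm.continuous
  have hcomp : (toLZ.{u} : firstCon.Quotient → LZ.{u}) = j ∘ k := by
    funext q
    exact Con.induction_on q fun _ => rfl
  have hcl := H LZ.{u} ⟨inferInstance, inferInstance, isTopologicalBasis_isClopen⟩ toLZ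
    (by rw [hcomp]; exact hj.comp hke)
  rw [hcomp, hk.2.range_comp] at hcl
  have hu : range j = univ := by
    rw [← hcl.closure_eq]; exact hjd.closure_range
  have : (ULift.up (OnePoint.infty : OnePoint ℕ) : ULift.{u} (OnePoint ℕ)) ∈ range j := by
    rw [hu]; trivial
  obtain ⟨n, hn⟩ := this
  exact OnePoint.coe_ne_infty n (congrArg ULift.down hn)

/-- There is a countable semigroup that, for every class `C` of topological semigroups with
`TzS ⊆ C ⊆ T1S`, is ideally `C`-closed and not projectively `C`-closed. -/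
theorem result :
    ∃ (X : Type) (_ : Semigroup X), Countable X ∧
      ∀ C : SGClass.{u}, TzS.Sub C → C.Sub T1S →
        IsIdeallyClosed C X ∧ ¬ IsProjectivelyClosed C X := by
  refine ⟨Rees, inferInstance, inferInstance, fun C hz h1 => ⟨fun I hI => ?_, fun H => ?_⟩⟩
  · rcases eq_empty_or_nonempty I with rfl | ⟨x, hx⟩
    · refine isCClosed_of_bijective (reesCon ∅ hI).mkMulHom ⟨fun a b hab => ?_, ?_⟩
        (fun Y _ _ hY => rees_closed Y (h1 Y hY))
      · rcases (reesCon ∅ hI).eq.1 hab with h | h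
        · exact h.1.elim
        · exact h
      · exact Quotient.mk''_surjective
    · intro Y _ _ hY h _
      have := (h1 Y hY).2
      have : Subsingleton (reesCon I hI).Quotient := ⟨fun p q =>
        Con.induction_on₂ p q fun a b => (reesCon I hI).eq.2
          (Or.inl ⟨ideal_eq_univ hI hx a, ideal_eq_univ hI hx b⟩)⟩
      exact (Set.finite_range h).isClosed
  · exact not_closed fun Y _ _ hY => H firstCon Y (hz Y hY)

end Pool.Agent.Results.MP_4caafd_al.ReesCounterexample
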